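import Pool.Agent.V11327.BStree

/-!
# Greedy path length versus leaf depth in the critical beta-splitting tree

The potential `h_{m-1}²` drops by at least `1/2` and at most `4` in expectation at each step of the
greedy path, while the one-step gain of the greedy path over a random leaf is bounded below, because
`E L_b - E L_a ≥ (h_a / 2) (b - a) / b` for `a ≤ b`.
-/

set_option autoImplicit false

open Filter Asymptotics
open Pool.Agent.V11327.BS

namespace Pool.Agent.Results.MP_ce738d_pr.GreedyVsLeaf

/-- In the discrete critical beta-splitting tree `E L⁺_n - E L_n` is of exact order `log² n`,
whatever the probability `p` with which ties are broken to the left. -/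
theorem result (p : ℝ) :
    (fun n : ℕ => ELplus p n - EL n) =Θ[atTop] fun n : ℕ => Real.log n ^ 2 :=
  greedy_vs_leaf p

end Pool.Agent.Results.MP_ce738d_pr.GreedyVsLeaf
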